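import Pool.Agent.W_7d29a1_X42.AnovaB
import Pool.Agent.W_7d29a1_F.LuckA

/-!
STORM X (`chi(1) < 1/2`): the slabs of dyadic duration, and the pure end of the proof. (helper42)
-/

namespace Pool.Agent.W_7d29a1_X42

open MeasureTheory ProbabilityTheory Finset
open Pool.Agent.W_7d29a1_f21 Pool.Agent.W_7d29a1_F

noncomputable section

variable {μ : Measure ℝ} [IsProbabilityMeasure μ] {F : Env → ℝ}

/-- Functions of at most linear growth are square integrable. -/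
theorem memLp_of_Sub (hEM : Pool.Agent.W_7d29a1_h47.EM μ) (hF : Sub F) : MemLp F 2 (lw Pt μ) := by
  rw [memLp_two_iff_integrable_sq hF.1.aestronglyMeasurable]
  exact hF.sq_integrable hEM

/-- The slab number `k` of duration `m`: the rows `(k m, (k + 1) m]`. -/
def sl (m k : ℕ) : Set Pt := rows (((k * m : ℕ) : ℤ)) ((((k + 1) * m : ℕ) : ℤ))

lemma mem_sl {m k : ℕ} {p : Pt} : p ∈ sl m k ↔ ((k * m : ℕ) : ℤ) < p.1 ∧ p.1 ≤ (((k + 1) * m : ℕ) : ℤ) := Iff.rfl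

lemma sl_two (m k : ℕ) : sl (2 * m) k = sl m (2 * k) ∪ sl m (2 * k + 1) := by
  ext p
  rw [Set.mem_union, mem_sl, mem_sl, mem_sl]
  push_cast
  have e1 : (k : ℤ) * (2 * m) = 2 * k * m := by ring
  have e2 : ((k : ℤ) + 1) * (2 * m) = (2 * k + 1 + 1) * m := by ring
  rw [e1, e2]
  have h1 : (2 * (k : ℤ)) * m ≤ (2 * k + 1) * m := by nlinarith [Int.natCast_nonneg m]
  have h2 : (2 * (k : ℤ) + 1) * m ≤ (2 * k + 1 + 1) * m := by nlinarith [Int.natCast_nonneg m]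
  constructor
  · rintro ⟨h3, h4⟩
    rcases le_or_gt p.1 ((2 * k + 1) * m : ℤ) with h5 | h5
    · exact Or.inl ⟨h3, h5⟩
    · exact Or.inr ⟨h5, h4⟩
  · rintro (⟨h3, h4⟩ | ⟨h3, h4⟩)
    · exact ⟨h3, h4.trans h2⟩
    · exact ⟨lt_of_le_of_lt h1 h3, h4⟩

lemma sl_disj_lt (m : ℕ) {k l : ℕ} (h : k < l) : Disjoint (sl m k) (sl m l) := by
  rw [Set.disjoint_left]
  intro p h1 h2
  rw [mem_sl] at h1 h2
  have h3 : (k + 1) * m ≤ l * m := Nat.mul_le_mul_right m h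
  have h4 : (((k + 1) * m : ℕ) : ℤ) ≤ ((l * m : ℕ) : ℤ) := by exact_mod_cast h3
  omega

lemma sl_disj (m : ℕ) {k l : ℕ} (h : k ≠ l) : Disjoint (sl m k) (sl m l) := by
  rcases lt_or_gt_of_ne h with h | h
  · exact sl_disj_lt m h
  · exact (sl_disj_lt m h).symm

/-- `D`: the sum of the variances of the first `K` slabs of duration `m`. -/
def DD (μ : Measure ℝ) (F : Env → ℝ) (m K : ℕ) : ℝ := ∑ k ∈ range K, ev μ (sl m k) F

/-- The interactions of the pairs `(2 k, 2 k + 1)` of slabs of duration `m`. -/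
def MM (μ : Measure ℝ) (F : Env → ℝ) (m K : ℕ) : ℝ := ∑ k ∈ range K, mix μ (sl m (2 * k)) (sl m (2 * k + 1)) F

omit [IsProbabilityMeasure μ] in
lemma DD_nonneg (F : Env → ℝ) (m K : ℕ) : 0 ≤ DD μ F m K := Finset.sum_nonneg fun _ _ => ev_nonneg _ _

omit [IsProbabilityMeasure μ] in
lemma MM_nonneg (F : Env → ℝ) (m K : ℕ) : 0 ≤ MM μ F m K := Finset.sum_nonneg fun _ _ => mix_nonneg _ _ _

/-- EXACT STEP: from duration `m` to duration `2 m`. -/
theorem DD_step (hF : MemLp F 2 (lw Pt μ)) (m K : ℕ) : DD μ F (2 * m) K + MM μ F m K = DD μ F m (2 * K) := by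
  induction K with
  | zero => simp [DD, MM]
  | succ K ih =>
    have h1 := ev_union hF (sl_disj m (show 2 * K ≠ 2 * K + 1 by omega))
    unfold DD MM at ih ⊢
    rw [Finset.sum_range_succ, Finset.sum_range_succ, show 2 * (K + 1) = 2 * K + 1 + 1 by ring,
      Finset.sum_range_succ, Finset.sum_range_succ, ← ih, sl_two]
    linarith

/-- The telescoped exact formula. -/
theorem DD_tele (hF : MemLp F 2 (lw Pt μ)) {j J : ℕ} (hj : j ≤ J) :
    DD μ F (2 ^ j) (2 ^ (J - j)) = DD μ F (2 ^ J) 1 + ∑ i ∈ Finset.Ico j J, MM μ F (2 ^ i) (2 ^ (J - i - 1)) := by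
  obtain ⟨d, hd⟩ : ∃ d, J = j + d := ⟨J - j, by omega⟩
  induction d generalizing j with
  | zero =>
    have : J = j := by omega
    subst this
    simp
  | succ d ih =>
    have ih' := ih (j := j + 1) (by omega) (by omega)
    have h1 := DD_step hF (2 ^ j) (2 ^ (J - j - 1))
    have h2 : 2 * 2 ^ j = 2 ^ (j + 1) := by rw [pow_succ]; ring
    have h3 : 2 * 2 ^ (J - j - 1) = 2 ^ (J - j) := by
      rw [← pow_succ']
      congr 1
      omega
    have h4 : J - j - 1 = J - (j + 1) := by omega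
    rw [h2, h3] at h1
    rw [← h1, Finset.sum_eq_sum_Ico_succ_bot (by omega : j < J)]
    have h5 : DD μ F (2 ^ (j + 1)) (2 ^ (J - j - 1)) = DD μ F (2 ^ (j + 1)) (2 ^ (J - (j + 1))) := by rw [h4]
    rw [h5, ih']
    ring

/-- The top: one slab which contains all the rows which `F` sees. -/
theorem DD_top (hm : Measurable F) (hF : MemLp F 2 (lw Pt μ)) {N m : ℕ} (hN : N ≤ m)
    (hd : DependsOn F (rows 0 N)) : DD μ F m 1 = Var[F; lw Pt μ] := by
  unfold DD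
  rw [Finset.sum_range_one]
  refine ev_of_dep hm hF fun {g g'} h => hd fun p hp => h p ?_
  obtain ⟨h1, h2⟩ := hp
  rw [mem_sl]
  refine ⟨by simpa using h1, h2.trans ?_⟩
  have : (N : ℤ) ≤ (m : ℤ) := by exact_mod_cast hN
  simpa using this

/-- The sum of the interactions of the levels `j ≤ i < J` is at most the sum of the variances of the slabs of the
level `j`. -/
theorem sum_MM_le (hF : MemLp F 2 (lw Pt μ)) {j J : ℕ} (hj : j ≤ J) :
    ∑ i ∈ Finset.Ico j J, MM μ F (2 ^ i) (2 ^ (J - i - 1)) ≤ DD μ F (2 ^ j) (2 ^ (J - j)) := by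
  rw [DD_tele hF hj]
  linarith [DD_nonneg (μ := μ) F (2 ^ J) 1]

/-- The variance decreases under all the interactions. -/
theorem var_le_DD (hm : Measurable F) (hF : MemLp F 2 (lw Pt μ)) {N j J : ℕ} (hN : N ≤ 2 ^ J)
    (hd : DependsOn F (rows 0 N)) (hj : j ≤ J) : Var[F; lw Pt μ] ≤ DD μ F (2 ^ j) (2 ^ (J - j)) := by
  rw [DD_tele hF hj, DD_top hm hF hN hd]
  have : 0 ≤ ∑ i ∈ Finset.Ico j J, MM μ F (2 ^ i) (2 ^ (J - i - 1)) := Finset.sum_nonneg fun _ _ => MM_nonneg _ _ _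
  linarith

omit [IsProbabilityMeasure μ] in
/-- The slabs above the rows which `F` sees do not count: the sum may be taken over the slabs which meet `(0, N]`. -/
theorem DD_cut {N m K K' : ℕ} (hd : DependsOn F (rows 0 N)) (hK : N ≤ K * m) (hKK : K ≤ K') :
    DD μ F m K' = DD μ F m K := by
  unfold DD
  rw [← Finset.sum_range_add_sum_Ico _ hKK, add_eq_left]
  refine Finset.sum_eq_zero fun k hk => ?_
  rw [Finset.mem_Ico] at hk
  refine ev_of_not_dep (A := rows 0 N) hd ?_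
  rw [Set.disjoint_left]
  intro p h1 h2
  rw [mem_sl] at h2
  have h3 : K * m ≤ k * m := Nat.mul_le_mul_right m hk.1
  have h4 : (N : ℤ) ≤ ((k * m : ℕ) : ℤ) := by exact_mod_cast hK.trans h3
  exact absurd h1.2 (by
    have := h2.1
    push Not
    omega)

/-! ### The pure end -/

/-- If every tail sum is at most `C` times its first term, the terms decay geometrically. -/
theorem geo_of_tail {a : ℕ → ℝ} {C : ℝ} {j₀ : ℕ} (hC : 1 ≤ C)
    (h : ∀ j J, j₀ ≤ j → j ≤ J → ∑ i ∈ Finset.Icc j J, a i ≤ C * a j) {J : ℕ} (hJ : j₀ ≤ J) :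
    a J ≤ C * a j₀ * (1 - 1 / C) ^ (J - j₀) := by
  have hC0 : 0 < C := lt_of_lt_of_le one_pos hC
  have hq : 0 ≤ 1 - 1 / C := by
    rw [sub_nonneg, div_le_one hC0]
    exact hC
  have key : ∀ j, j₀ ≤ j → j ≤ J → ∑ i ∈ Finset.Icc j J, a i ≤
      (1 - 1 / C) ^ (j - j₀) * ∑ i ∈ Finset.Icc j₀ J, a i := by
    intro j hj
    induction j, hj using Nat.le_induction with
    | base => intro _; simp
    | succ j hj ih =>
      intro hjJ
      have h1 := ih (by omega)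
      have h2 := h j J hj (by omega)
      have h3 : ∑ i ∈ Finset.Icc j J, a i = a j + ∑ i ∈ Finset.Icc (j + 1) J, a i := by
        rw [← Finset.Ico_succ_right_eq_Icc, ← Finset.Ico_succ_right_eq_Icc, Finset.sum_eq_sum_Ico_succ_bot]
        exact Nat.lt_succ_of_le (by omega)
      have h4 : (∑ i ∈ Finset.Icc j J, a i) / C ≤ a j := by
        rw [div_le_iff₀ hC0]
        linarith
      have h5 : ∑ i ∈ Finset.Icc (j + 1) J, a i ≤ (1 - 1 / C) * ∑ i ∈ Finset.Icc j J, a i := by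
        have : (1 - 1 / C) * ∑ i ∈ Finset.Icc j J, a i = ∑ i ∈ Finset.Icc j J, a i - (∑ i ∈ Finset.Icc j J, a i) / C := by
          field_simp
        rw [this]
        linarith
      refine h5.trans ?_
      rw [show j + 1 - j₀ = (j - j₀) + 1 by omega, pow_succ]
      calc (1 - 1 / C) * ∑ i ∈ Finset.Icc j J, a i
          ≤ (1 - 1 / C) * ((1 - 1 / C) ^ (j - j₀) * ∑ i ∈ Finset.Icc j₀ J, a i) := mul_le_mul_of_nonneg_left h1 hq
        _ = _ := by ring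
  have h1 := key J hJ le_rfl
  rw [Finset.Icc_self, Finset.sum_singleton] at h1
  have h2 := h j₀ J le_rfl hJ
  have h3 := mul_le_mul_of_nonneg_left h2 (pow_nonneg hq (J - j₀))
  calc a J ≤ (1 - 1 / C) ^ (J - j₀) * ∑ i ∈ Finset.Icc j₀ J, a i := h1
    _ ≤ (1 - 1 / C) ^ (J - j₀) * (C * a j₀) := h3
    _ = _ := by ring

/-- THE PURE END: a nondecreasing `E ≥ 0` whose `a_j = E(2^j)^2 / 2^j` has tail sums at most `C` times the first term
satisfies `E(n)^2 ≤ C' n^(1 - ε)`. -/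
theorem pow_of_tail {E : ℕ → ℝ} (hE0 : ∀ n, 0 ≤ E n) (hmono : Monotone E) {C : ℝ} {j₀ : ℕ} (hC : 1 ≤ C)
    (h : ∀ j J, j₀ ≤ j → j ≤ J → ∑ i ∈ Finset.Icc j J, E (2 ^ i) ^ 2 / 2 ^ i ≤ C * (E (2 ^ j) ^ 2 / 2 ^ j)) :
    ∃ ε C' : ℝ, 0 < ε ∧ ε ≤ 1 ∧ 0 < C' ∧ ∀ n : ℕ, 1 ≤ n → E n ^ 2 ≤ C' * (n : ℝ) ^ (1 - ε) := by
  -- make the constant at least 2
  obtain ⟨D, hD⟩ : ∃ D : ℝ, D = C + 1 := ⟨_, rfl⟩
  have hD2 : 2 ≤ D := by linarith
  have hD0 : 0 < D := by linarith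
  have ha : ∀ j, 0 ≤ E (2 ^ j) ^ 2 / 2 ^ j := fun j => by positivity
  have h' : ∀ j J, j₀ ≤ j → j ≤ J → ∑ i ∈ Finset.Icc j J, E (2 ^ i) ^ 2 / 2 ^ i ≤ D * (E (2 ^ j) ^ 2 / 2 ^ j) :=
    fun j J h1 h2 => (h j J h1 h2).trans (mul_le_mul_of_nonneg_right (by linarith) (ha j))
  have hgeo := fun J (hJ : j₀ ≤ J) => geo_of_tail (a := fun j => E (2 ^ j) ^ 2 / 2 ^ j) (by linarith : (1 : ℝ) ≤ D) h' hJ
  obtain ⟨q, hq⟩ : ∃ q : ℝ, q = 1 - 1 / D := ⟨_, rfl⟩
  have hq1 : 1 / 2 ≤ q := by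
    rw [hq]
    have : 1 / D ≤ 1 / 2 := one_div_le_one_div_of_le (by norm_num) hD2
    linarith
  have hq2 : q < 1 := by
    rw [hq]
    have : 0 < 1 / D := by positivity
    linarith
  have hq0 : 0 < q := by linarith
  obtain ⟨ε, hε⟩ : ∃ ε : ℝ, ε = -Real.logb 2 q := ⟨_, rfl⟩
  have hεq : (2 : ℝ) ^ (-ε) = q := by
    rw [hε, neg_neg, Real.rpow_logb (by norm_num) (by norm_num) hq0]
  have hε0 : 0 < ε := by
    rw [hε]
    have := Real.logb_neg (b := 2) (by norm_num) hq0 hq2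
    linarith
  have hε1 : ε ≤ 1 := by
    have h1 : Real.logb 2 (1 / 2) ≤ Real.logb 2 q := Real.logb_le_logb_of_le (by norm_num) (by norm_num) hq1
    have h2 : Real.logb 2 (1 / 2) = -1 := by
      rw [one_div, Real.logb_inv, Real.logb_self_eq_one (by norm_num)]
    rw [hε]
    linarith
  obtain ⟨A, hA⟩ : ∃ A : ℝ, A = D * (E (2 ^ j₀) ^ 2 / 2 ^ j₀) / q ^ j₀ := ⟨_, rfl⟩
  have hA0 : 0 ≤ A := by rw [hA]; exact div_nonneg (mul_nonneg hD0.le (ha j₀)) (pow_nonneg hq0.le _)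
  have hlev : ∀ J, j₀ ≤ J → E (2 ^ J) ^ 2 ≤ A * (2 : ℝ) ^ (J * (1 - ε)) := by
    intro J hJ
    have h1 : E (2 ^ J) ^ 2 / 2 ^ J ≤ D * (E (2 ^ j₀) ^ 2 / 2 ^ j₀) * (1 - 1 / D) ^ (J - j₀) := hgeo J hJ
    rw [← hq] at h1
    have h2 : q ^ (J - j₀) = q ^ J / q ^ j₀ := by
      rw [eq_div_iff (pow_pos hq0 _).ne', ← pow_add, Nat.sub_add_cancel hJ]
    rw [div_le_iff₀ (by positivity), h2] at h1
    refine h1.trans (le_of_eq ?_)
    have h3 : (2 : ℝ) ^ ((J : ℝ) * (1 - ε)) = 2 ^ J * q ^ J := by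
      rw [show (J : ℝ) * (1 - ε) = (J : ℝ) + (-ε) * J by ring, Real.rpow_add (by norm_num), Real.rpow_natCast,
        Real.rpow_mul (by norm_num), hεq, Real.rpow_natCast]
    rw [h3, hA]
    ring
  refine ⟨ε, 4 * (A + E (2 ^ j₀) ^ 2 + 1), hε0, hε1, by positivity, fun n hn => ?_⟩
  have hn1 : (1 : ℝ) ≤ n := by exact_mod_cast hn
  rcases le_or_gt n (2 ^ j₀) with hlt | hgt
  · have h1 : E n ^ 2 ≤ E (2 ^ j₀) ^ 2 := pow_le_pow_left₀ (hE0 n) (hmono hlt) 2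
    have h2 : (1 : ℝ) ≤ (n : ℝ) ^ (1 - ε) := Real.one_le_rpow hn1 (by linarith)
    have h3 : 0 ≤ 4 * (A + E (2 ^ j₀) ^ 2 + 1) := by positivity
    nlinarith [sq_nonneg (E (2 ^ j₀))]
  · -- `2 ^ (J - 1) < n ≤ 2 ^ J`
    obtain ⟨J, hJ⟩ : ∃ J, J = Nat.log 2 n + 1 := ⟨_, rfl⟩
    have h1 : n ≤ 2 ^ J := by
      rw [hJ]
      exact (Nat.lt_pow_succ_log_self (by norm_num) n).le
    have h2 : j₀ ≤ J := by
      by_contra hc
      push Not at hc
      have : 2 ^ J ≤ 2 ^ j₀ := Nat.pow_le_pow_right (by norm_num) hc.le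
      omega
    have h3 : 2 ^ (J - 1) ≤ n := by
      rw [hJ, Nat.add_sub_cancel]
      exact Nat.pow_log_le_self 2 (by omega)
    have h4 := hlev J h2
    have h5 : E n ^ 2 ≤ E (2 ^ J) ^ 2 := pow_le_pow_left₀ (hE0 n) (hmono h1) 2
    have h6 : (2 : ℝ) ^ ((J : ℝ) * (1 - ε)) ≤ 2 * (n : ℝ) ^ (1 - ε) := by
      have h7 : (2 : ℝ) ^ (J : ℝ) ≤ 2 * n := by
        rw [Real.rpow_natCast]
        have h8 : (2 : ℝ) ^ J = 2 * 2 ^ (J - 1) := by
          rw [← pow_succ']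
          congr 1
          omega
        rw [h8]
        have : ((2 ^ (J - 1) : ℕ) : ℝ) ≤ n := by exact_mod_cast h3
        push_cast at this
        linarith
      rw [Real.rpow_mul (by norm_num)]
      refine (Real.rpow_le_rpow (by positivity) h7 (by linarith)).trans ?_
      rw [Real.mul_rpow (by norm_num) (by positivity)]
      refine mul_le_mul_of_nonneg_right ?_ (by positivity)
      calc (2 : ℝ) ^ (1 - ε) ≤ 2 ^ (1 : ℝ) := Real.rpow_le_rpow_of_exponent_le (by norm_num) (by linarith)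
        _ = 2 := Real.rpow_one 2
    have h9 : 0 ≤ (n : ℝ) ^ (1 - ε) := by positivity
    have h10 := mul_le_mul_of_nonneg_left h6 hA0
    have h11 : 0 ≤ E (2 ^ j₀) ^ 2 * (n : ℝ) ^ (1 - ε) := by positivity
    nlinarith

end

end Pool.Agent.W_7d29a1_X42
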