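import Pool.Agent.W_7d29a1_X42.Anova

/-!
STORM X (`chi(1) < 1/2`), ANOVA over sets of sites: monotonicity of the interaction and the choice of the sites from
the outside. (helper42)
-/

namespace Pool.Agent.W_7d29a1_X42

open MeasureTheory ProbabilityTheory Finset
open Pool.Agent.W_7d29a1_f21

noncomputable section

variable {ι : Type*} {μ : Measure ℝ} [IsProbabilityMeasure μ] {F : (ι → ℝ) → ℝ}

/-- Integrating out first `A`, then `B`. -/
lemma cE_comp (hF : Integrable F (lw ι μ)) (A B : Set ι) :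
    ∀ᵐ g ∂(lw ι μ), cE μ B (cE μ A F) g = cE μ (A ∪ B) F g := by
  classical
  have i1 : Integrable (fun w : (ι → ℝ) × (ι → ℝ) => F (splice (A ∪ B) w.2 w.1)) ((lw ι μ).prod (lw ι μ)) :=
    (mp_res (μ := μ) (A ∪ B)).integrable_comp_of_integrable hF
  filter_upwards [i1.prod_right_ae] with g hg
  have h1 := mp_integral (F := fun g' => F (splice (A ∪ B) g' g)) (mp_res (μ := μ) A) hg.aestronglyMeasurable
  have h2 : Integrable (fun w : (ι → ℝ) × (ι → ℝ) => F (splice (A ∪ B) (splice A w.2 w.1) g))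
      ((lw ι μ).prod (lw ι μ)) := (mp_res (μ := μ) A).integrable_comp_of_integrable hg
  show ∫ g', (∫ g'', F (splice A g'' (splice B g' g)) ∂(lw ι μ)) ∂(lw ι μ) = ∫ g', F (splice (A ∪ B) g' g) ∂(lw ι μ)
  rw [← h1, integral_prod _ h2]
  refine integral_congr_ae (Filter.Eventually.of_forall fun g' => ?_)
  simp only
  refine integral_congr_ae (Filter.Eventually.of_forall fun g'' => ?_)
  simp only
  congr 1
  ext p
  unfold splice
  by_cases hA : p ∈ A
  · simp [hA]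
  · by_cases hB : p ∈ B <;> simp [hA, hB]

lemma qF_comp (hm : Measurable F) (hF : MemLp F 2 (lw ι μ)) (A B : Set ι) :
    qF μ B (cE μ A F) = qF μ (A ∪ B) F := by
  rw [qF_eq (measurable_cE hm A) (memLp_cE hm hF A), qF_eq hm hF]
  refine integral_congr_ae ?_
  filter_upwards [cE_comp (hF.integrable (by norm_num)) A B] with g hg
  rw [hg]

lemma mix_eq (hF : MemLp F 2 (lw ι μ)) {A B : Set ι} (h : Disjoint A B) :
    mix μ A B F = ∫ g, F g ^ 2 ∂(lw ι μ) - qF μ A F - qF μ B F + qF μ (A ∪ B) F := by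
  have h1 := ev_union hF h
  rw [ev_eq hF, ev_eq hF, ev_eq hF] at h1
  linarith

omit [IsProbabilityMeasure μ] in
lemma mix_comm (A B : Set ι) (F : (ι → ℝ) → ℝ) : mix μ A B F = mix μ B A F := by
  unfold mix dd
  rw [Set.union_comm]
  congr 1
  refine integral_congr_ae (Filter.Eventually.of_forall fun w => ?_)
  simp only
  ring

/-- The interaction increases with the first set. -/
theorem mix_mono_left (hm : Measurable F) (hF : MemLp F 2 (lw ι μ)) {A B T : Set ι} (h : Disjoint A B) (hT : T ⊆ A) :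
    mix μ T B F ≤ mix μ A B F := by
  have hTB : Disjoint T B := h.mono_left hT
  have m1 := memLp_cE hm hF T
  have h1 := mix_eq hF h
  have h2 := mix_eq hF hTB
  have h3 := mix_eq m1 h
  have h4 := mix_nonneg (μ := μ) A B (cE μ T F)
  have h5 : ∫ g, cE μ T F g ^ 2 ∂(lw ι μ) = qF μ T F := (qF_eq hm hF T).symm
  have e1 : T ∪ A = A := Set.union_eq_right.2 hT
  have e2 : T ∪ (A ∪ B) = A ∪ B := Set.union_eq_right.2 (hT.trans Set.subset_union_left)
  rw [qF_comp hm hF, qF_comp hm hF, qF_comp hm hF, h5, e1, e2] at h3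
  linarith

/-- The interaction increases with both sets. -/
theorem mix_mono (hm : Measurable F) (hF : MemLp F 2 (lw ι μ)) {A B T T' : Set ι} (h : Disjoint A B) (hT : T ⊆ A)
    (hT' : T' ⊆ B) : mix μ T T' F ≤ mix μ A B F := by
  have h1 := mix_mono_left hm hF h hT
  have h2 := mix_mono_left hm hF (A := B) (B := T) (T := T') (h.symm.mono_right hT) hT'
  rw [mix_comm T' T, mix_comm B T] at h2
  exact h2.trans h1

lemma splice_outside {A C : Set ι} (h : A ⊆ C) (g g' : ι → ℝ) {p : ι} (hp : p ∉ C) : splice A g' g p = g p :=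
  splice_not_mem _ _ fun hA => hp (h hA)

/-- The mixed difference of `F` restricted to an event of the outside. -/
lemma dd_indicator {A B C : Set ι} (hA : A ⊆ C) (hB : B ⊆ C) {E : Set (ι → ℝ)}
    (hE : ∀ g g' : ι → ℝ, (∀ p, p ∉ C → g p = g' p) → (g ∈ E ↔ g' ∈ E)) (w : (ι → ℝ) × (ι → ℝ)) :
    dd A B (E.indicator F) w = (Prod.fst ⁻¹' E : Set ((ι → ℝ) × (ι → ℝ))).indicator (dd A B F) w := by
  have h1 : splice A w.2 w.1 ∈ E ↔ w.1 ∈ E := hE _ _ fun p hp => splice_outside hA _ _ hp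
  have h2 : splice B w.2 w.1 ∈ E ↔ w.1 ∈ E := hE _ _ fun p hp => splice_outside hB _ _ hp
  have h3 : splice (A ∪ B) w.2 w.1 ∈ E ↔ w.1 ∈ E :=
    hE _ _ fun p hp => splice_outside (Set.union_subset hA hB) _ _ hp
  by_cases hw : w.1 ∈ E
  · rw [Set.indicator_of_mem (show w ∈ (Prod.fst ⁻¹' E : Set ((ι → ℝ) × (ι → ℝ))) from hw)]
    unfold dd
    rw [Set.indicator_of_mem hw, Set.indicator_of_mem (h1.2 hw), Set.indicator_of_mem (h2.2 hw),
      Set.indicator_of_mem (h3.2 hw)]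
  · rw [Set.indicator_of_notMem (show w ∉ (Prod.fst ⁻¹' E : Set ((ι → ℝ) × (ι → ℝ))) from hw)]
    unfold dd
    rw [Set.indicator_of_notMem hw, Set.indicator_of_notMem (fun h => hw (h1.1 h)),
      Set.indicator_of_notMem (fun h => hw (h2.1 h)), Set.indicator_of_notMem (fun h => hw (h3.1 h))]
    ring

lemma memLp_dd (hF : MemLp F 2 (lw ι μ)) (A B : Set ι) :
    MemLp (dd A B F) 2 ((lw ι μ).prod (lw ι μ)) :=
  (((memLp_fst hF).sub (memLp_res hF A)).sub (memLp_res hF B)).add (memLp_res hF (A ∪ B))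

/-- The interaction is the sum over a partition of the outside. -/
lemma sum_mix_le (hm : Measurable F) (hF : MemLp F 2 (lw ι μ)) {A B : Set ι} (hAB : Disjoint A B)
    {κ : Type*} (s : Finset κ) {E : κ → Set (ι → ℝ)} (hEm : ∀ k ∈ s, MeasurableSet (E k))
    (hEd : ∀ k ∈ s, ∀ l ∈ s, k ≠ l → Disjoint (E k) (E l))
    (hE : ∀ k ∈ s, ∀ g g' : ι → ℝ, (∀ p, p ∉ A ∪ B → g p = g' p) → (g ∈ E k ↔ g' ∈ E k))
    {T T' : κ → Set ι} (hT : ∀ k ∈ s, T k ⊆ A) (hT' : ∀ k ∈ s, T' k ⊆ B) :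
    (1 / 4) * ∑ k ∈ s, ∫ w, (Prod.fst ⁻¹' E k : Set ((ι → ℝ) × (ι → ℝ))).indicator (fun w => dd (T k) (T' k) F w ^ 2) w
      ∂((lw ι μ).prod (lw ι μ)) ≤ mix μ A B F := by
  classical
  have step1 : ∀ k ∈ s, mix μ (T k) (T' k) ((E k).indicator F) ≤ mix μ A B ((E k).indicator F) := fun k hk =>
    mix_mono (hm.indicator (hEm k hk)) (hF.indicator (hEm k hk)) hAB (hT k hk) (hT' k hk)
  have sq_ind : ∀ (S : Set ((ι → ℝ) × (ι → ℝ))) (f : (ι → ℝ) × (ι → ℝ) → ℝ) (w : (ι → ℝ) × (ι → ℝ)),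
      S.indicator f w ^ 2 = S.indicator (fun w => f w ^ 2) w := by
    intro S f w
    by_cases hw : w ∈ S
    · rw [Set.indicator_of_mem hw, Set.indicator_of_mem hw]
    · rw [Set.indicator_of_notMem hw, Set.indicator_of_notMem hw]
      ring
  have step2 : ∀ k ∈ s, mix μ (T k) (T' k) ((E k).indicator F) = (1 / 4) *
      ∫ w, (Prod.fst ⁻¹' E k : Set ((ι → ℝ) × (ι → ℝ))).indicator (fun w => dd (T k) (T' k) F w ^ 2) w
        ∂((lw ι μ).prod (lw ι μ)) := by
    intro k hk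
    unfold mix
    congr 1
    refine integral_congr_ae (Filter.Eventually.of_forall fun w => ?_)
    simp only
    rw [dd_indicator ((hT k hk).trans Set.subset_union_left) ((hT' k hk).trans Set.subset_union_right) (hE k hk),
      sq_ind]
  have step3 : ∀ k ∈ s, mix μ A B ((E k).indicator F) = (1 / 4) *
      ∫ w, (Prod.fst ⁻¹' E k : Set ((ι → ℝ) × (ι → ℝ))).indicator (fun w => dd A B F w ^ 2) w
        ∂((lw ι μ).prod (lw ι μ)) := by
    intro k hk
    unfold mix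
    congr 1
    refine integral_congr_ae (Filter.Eventually.of_forall fun w => ?_)
    simp only
    rw [dd_indicator Set.subset_union_left Set.subset_union_right (hE k hk), sq_ind]
  have hi := (memLp_dd (μ := μ) hF A B).integrable_sq
  have hmE : ∀ k ∈ s, MeasurableSet (Prod.fst ⁻¹' E k : Set ((ι → ℝ) × (ι → ℝ))) := fun k hk =>
    measurable_fst (hEm k hk)
  have step4 : ∑ k ∈ s, ∫ w, (Prod.fst ⁻¹' E k : Set ((ι → ℝ) × (ι → ℝ))).indicator (fun w => dd A B F w ^ 2) w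
        ∂((lw ι μ).prod (lw ι μ)) ≤ ∫ w, dd A B F w ^ 2 ∂((lw ι μ).prod (lw ι μ)) := by
    rw [← integral_finsetSum _ fun k hk => hi.indicator (hmE k hk)]
    refine integral_mono (integrable_finsetSum _ fun k hk => hi.indicator (hmE k hk)) hi fun w => ?_
    show ∑ k ∈ s, (Prod.fst ⁻¹' E k : Set ((ι → ℝ) × (ι → ℝ))).indicator (fun w => dd A B F w ^ 2) w ≤ dd A B F w ^ 2
    by_cases hw : ∃ k ∈ s, w.1 ∈ E k
    · obtain ⟨k, hk, hwk⟩ := hw
      rw [Finset.sum_eq_single_of_mem k hk]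
      · rw [Set.indicator_of_mem (show w ∈ (Prod.fst ⁻¹' E k : Set ((ι → ℝ) × (ι → ℝ))) from hwk)]
      · intro l hl hlk
        refine Set.indicator_of_notMem (fun hw => ?_) _
        exact Set.disjoint_left.1 (hEd l hl k hk hlk) hw hwk
    · rw [Finset.sum_eq_zero]
      · exact sq_nonneg _
      · intro k hk
        refine Set.indicator_of_notMem (fun hwk => ?_) _
        exact hw ⟨k, hk, hwk⟩
  have step5 : ∑ k ∈ s, ∫ w, (Prod.fst ⁻¹' E k : Set ((ι → ℝ) × (ι → ℝ))).indicator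
        (fun w => dd (T k) (T' k) F w ^ 2) w ∂((lw ι μ).prod (lw ι μ)) ≤
      ∑ k ∈ s, ∫ w, (Prod.fst ⁻¹' E k : Set ((ι → ℝ) × (ι → ℝ))).indicator (fun w => dd A B F w ^ 2) w
        ∂((lw ι μ).prod (lw ι μ)) := by
    refine Finset.sum_le_sum fun k hk => ?_
    have h1 := step1 k hk
    rw [step2 k hk, step3 k hk] at h1
    linarith
  unfold mix
  linarith

/-- THE INPUT FORM OF THE INTERACTION: the sets `T k ⊆ A`, `T' k ⊆ B` may be chosen from the outside of `A ∪ B`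
(event `E k`); if the mixed difference is at least `a` on the event `S` of two copies, then
`mix A B F ≥ a ^ 2 P2 (S) / 4`. -/
theorem mix_ge_choice (hm : Measurable F) (hF : MemLp F 2 (lw ι μ)) {A B : Set ι} (hAB : Disjoint A B)
    {κ : Type*} (s : Finset κ) {E : κ → Set (ι → ℝ)} (hEm : ∀ k ∈ s, MeasurableSet (E k))
    (hEd : ∀ k ∈ s, ∀ l ∈ s, k ≠ l → Disjoint (E k) (E l))
    (hE : ∀ k ∈ s, ∀ g g' : ι → ℝ, (∀ p, p ∉ A ∪ B → g p = g' p) → (g ∈ E k ↔ g' ∈ E k))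
    {T T' : κ → Set ι} (hT : ∀ k ∈ s, T k ⊆ A) (hT' : ∀ k ∈ s, T' k ⊆ B)
    {S : Set ((ι → ℝ) × (ι → ℝ))} {a : ℝ} (ha : 0 ≤ a) (hS : MeasurableSet S)
    (h : ∀ w ∈ S, ∃ k ∈ s, w.1 ∈ E k ∧ a ≤ |dd (T k) (T' k) F w|) :
    a ^ 2 * ((lw ι μ).prod (lw ι μ)).real S / 4 ≤ mix μ A B F := by
  classical
  have h0 := sum_mix_le hm hF hAB s hEm hEd hE hT hT'
  have hmE : ∀ k ∈ s, MeasurableSet (Prod.fst ⁻¹' E k : Set ((ι → ℝ) × (ι → ℝ))) := fun k hk =>
    measurable_fst (hEm k hk)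
  have hi : ∀ k, Integrable (fun w => dd (T k) (T' k) F w ^ 2) ((lw ι μ).prod (lw ι μ)) := fun k =>
    (memLp_dd (μ := μ) hF (T k) (T' k)).integrable_sq
  have h1 : ∫ w, S.indicator (fun _ => a ^ 2) w ∂((lw ι μ).prod (lw ι μ)) =
      ((lw ι μ).prod (lw ι μ)).real S * a ^ 2 := by
    rw [integral_indicator_const _ hS, smul_eq_mul]
  have h2 : ∫ w, S.indicator (fun _ => a ^ 2) w ∂((lw ι μ).prod (lw ι μ)) ≤ ∑ k ∈ s, ∫ w, (Prod.fst ⁻¹' E k :
      Set ((ι → ℝ) × (ι → ℝ))).indicator (fun w => dd (T k) (T' k) F w ^ 2) w ∂((lw ι μ).prod (lw ι μ)) := by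
    rw [← integral_finsetSum _ fun k hk => (hi k).indicator (hmE k hk)]
    refine integral_mono ((integrable_const _).indicator hS)
      (integrable_finsetSum _ fun k hk => (hi k).indicator (hmE k hk)) fun w => ?_
    show S.indicator (fun _ => a ^ 2) w ≤ ∑ k ∈ s, (Prod.fst ⁻¹' E k : Set ((ι → ℝ) × (ι → ℝ))).indicator
      (fun w => dd (T k) (T' k) F w ^ 2) w
    have hnn : ∀ k ∈ s, 0 ≤ (Prod.fst ⁻¹' E k : Set ((ι → ℝ) × (ι → ℝ))).indicator
      (fun w => dd (T k) (T' k) F w ^ 2) w := fun k _ => Set.indicator_nonneg (fun _ _ => sq_nonneg _) _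
    by_cases hw : w ∈ S
    · obtain ⟨k, hk, hwk, hak⟩ := h w hw
      refine le_trans ?_ (Finset.single_le_sum hnn hk)
      rw [Set.indicator_of_mem hw, Set.indicator_of_mem (show w ∈ (Prod.fst ⁻¹' E k : Set ((ι → ℝ) × (ι → ℝ))) from hwk),
        ← sq_abs (dd (T k) (T' k) F w)]
      exact pow_le_pow_left₀ ha hak 2
    · rw [Set.indicator_of_notMem hw]
      exact Finset.sum_nonneg hnn
  rw [h1] at h2
  linarith

end

end Pool.Agent.W_7d29a1_X42
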