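import Pool.Agent.W_7d29a1_f21.Ind

/-!
STORM X (`chi(1) < 1/2`), ANOVA over sets of sites: the exact tensorisation of the variance with the interaction
term. (helper42)
-/

namespace Pool.Agent.W_7d29a1_X42

open MeasureTheory ProbabilityTheory Finset
open Pool.Agent.W_7d29a1_f21

noncomputable section

variable {ι : Type*} {μ : Measure ℝ} [IsProbabilityMeasure μ]

/-! ### Splices -/

lemma splice_self (A : Set ι) (g : ι → ℝ) : splice A g g = g := by
  ext p
  unfold splice
  split_ifs <;> rfl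

lemma splice_empty (g g' : ι → ℝ) : splice (∅ : Set ι) g g' = g' := by
  ext p
  simp [splice]

lemma splice_univ (g g' : ι → ℝ) : splice (Set.univ : Set ι) g g' = g := by
  ext p
  simp [splice]

lemma splice_splice_back (A : Set ι) (g g' : ι → ℝ) : splice A (splice A g g') (splice A g' g) = g := by
  ext p
  unfold splice
  split_ifs <;> rfl

lemma splice_union_swap {A B : Set ι} (h : Disjoint A B) (g g' : ι → ℝ) :
    splice (A ∪ B) (splice A g g') (splice A g' g) = splice B g' g := by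
  classical
  ext p
  unfold splice
  by_cases hA : p ∈ A
  · have hB : p ∉ B := fun hB => Set.disjoint_left.1 h hA hB
    simp [hA, hB]
  · by_cases hB : p ∈ B
    · simp [hA, hB]
    · simp [hA, hB]

lemma splice_swap_union {A B : Set ι} (h : Disjoint A B) (g g' : ι → ℝ) :
    splice B (splice A g g') (splice A g' g) = splice (A ∪ B) g' g := by
  classical
  ext p
  unfold splice
  by_cases hA : p ∈ A
  · have hB : p ∉ B := fun hB => Set.disjoint_left.1 h hA hB
    simp [hA, hB]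
  · by_cases hB : p ∈ B
    · simp [hA, hB]
    · simp [hA, hB]

lemma splice_comp {A B : Set ι} (g g' g'' : ι → ℝ) :
    splice A g (splice B g' g'') = fun p => by
      classical exact if p ∈ A then g p else if p ∈ B then g' p else g'' p := by
  classical
  ext p
  unfold splice
  rfl

/-- Exchanging the two copies on the sites of `A` preserves the law of two independent copies. -/
lemma mp_swap (A : Set ι) :
    MeasurePreserving (fun w : (ι → ℝ) × (ι → ℝ) => (splice A w.2 w.1, splice A w.1 w.2))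
      ((lw ι μ).prod (lw ι μ)) ((lw ι μ).prod (lw ι μ)) := by
  classical
  obtain ⟨σ, hσ⟩ : ∃ σ : ι ⊕ ι → ι ⊕ ι, σ = Sum.elim
      (fun p => if p ∈ A then (Sum.inr p : ι ⊕ ι) else Sum.inl p)
      (fun p => if p ∈ A then (Sum.inl p : ι ⊕ ι) else Sum.inr p) := ⟨_, rfl⟩
  have hinj : Function.Injective σ := by
    intro p q h
    rw [hσ] at h
    rcases p with p | p <;> rcases q with q | q <;> simp only [Sum.elim_inl, Sum.elim_inr] at h <;>
      split_ifs at h <;> simp_all
  have h1 := mp_elim (μ := μ) hinj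
  -- from one family on `ι ⊕ ι` to two families
  have h2 : MeasurePreserving (fun h : ι ⊕ ι → ℝ => ((fun p => h (Sum.inl p) : ι → ℝ), (fun p => h (Sum.inr p) : ι → ℝ)))
      (lw (ι ⊕ ι) μ) ((lw ι μ).prod (lw ι μ)) := by
    have hm : Measurable (fun h : ι ⊕ ι → ℝ => ((fun p => h (Sum.inl p) : ι → ℝ), (fun p => h (Sum.inr p) : ι → ℝ))) :=
      Measurable.prodMk (measurable_pi_iff.2 fun p => measurable_pi_apply _)
        (measurable_pi_iff.2 fun p => measurable_pi_apply _)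
    refine ⟨hm, ?_⟩
    have h3 : Measurable (fun (w : (ι → ℝ) × (ι → ℝ)) (p : ι ⊕ ι) => Sum.elim w.1 w.2 p) := by
      refine measurable_pi_iff.2 fun p => ?_
      cases p with
      | inl p => simp only [Sum.elim_inl]; fun_prop
      | inr p => simp only [Sum.elim_inr]; fun_prop
    rw [← map_elim, Measure.map_map hm h3]
    have h4 : ((fun h : ι ⊕ ι → ℝ => ((fun p => h (Sum.inl p) : ι → ℝ), (fun p => h (Sum.inr p) : ι → ℝ))) ∘
        fun (w : (ι → ℝ) × (ι → ℝ)) (p : ι ⊕ ι) => Sum.elim w.1 w.2 p) = id := by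
      ext w <;> simp
    rw [h4, Measure.map_id]
  have h5 := h2.comp h1
  convert h5 using 1
  ext w p
  · simp only [Function.comp, hσ, Sum.elim_inl]
    unfold splice
    split_ifs <;> rfl
  · simp only [Function.comp, hσ, Sum.elim_inr]
    unfold splice
    split_ifs <;> rfl

/-- Resampling the sites of `A`. -/
lemma mp_res (A : Set ι) :
    MeasurePreserving (fun w : (ι → ℝ) × (ι → ℝ) => splice A w.2 w.1)
      ((lw ι μ).prod (lw ι μ)) (lw ι μ) :=
  measurePreserving_fst.comp (mp_swap A)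

/-! ### The functionals -/

/-- `E (F(g) F(g'))`, where `g'` is `g` with the sites of `A` resampled. -/
def qF (μ : Measure ℝ) (A : Set ι) (F : (ι → ℝ) → ℝ) : ℝ :=
  ∫ w, F w.1 * F (splice A w.2 w.1) ∂((lw ι μ).prod (lw ι μ))

/-- `E Var_A F`: half the mean square of the change of `F` if the sites of `A` are resampled. -/
def ev (μ : Measure ℝ) (A : Set ι) (F : (ι → ℝ) → ℝ) : ℝ :=
  (1 / 2) * ∫ w, (F (splice A w.2 w.1) - F w.1) ^ 2 ∂((lw ι μ).prod (lw ι μ))

/-- The mixed difference. -/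
def dd (A B : Set ι) (F : (ι → ℝ) → ℝ) (w : (ι → ℝ) × (ι → ℝ)) : ℝ :=
  F w.1 - F (splice A w.2 w.1) - F (splice B w.2 w.1) + F (splice (A ∪ B) w.2 w.1)

/-- The interaction of `A` and `B`. -/
def mix (μ : Measure ℝ) (A B : Set ι) (F : (ι → ℝ) → ℝ) : ℝ :=
  (1 / 4) * ∫ w, dd A B F w ^ 2 ∂((lw ι μ).prod (lw ι μ))

omit [IsProbabilityMeasure μ] in
lemma ev_nonneg (A : Set ι) (F : (ι → ℝ) → ℝ) : 0 ≤ ev μ A F :=
  mul_nonneg (by norm_num) (integral_nonneg fun _ => sq_nonneg _)

omit [IsProbabilityMeasure μ] in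
lemma mix_nonneg (A B : Set ι) (F : (ι → ℝ) → ℝ) : 0 ≤ mix μ A B F :=
  mul_nonneg (by norm_num) (integral_nonneg fun _ => sq_nonneg _)

variable {F : (ι → ℝ) → ℝ}

lemma memLp_fst (hF : MemLp F 2 (lw ι μ)) :
    MemLp (fun w : (ι → ℝ) × (ι → ℝ) => F w.1) 2 ((lw ι μ).prod (lw ι μ)) :=
  hF.comp_measurePreserving measurePreserving_fst

lemma memLp_res (hF : MemLp F 2 (lw ι μ)) (A : Set ι) :
    MemLp (fun w : (ι → ℝ) × (ι → ℝ) => F (splice A w.2 w.1)) 2 ((lw ι μ).prod (lw ι μ)) :=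
  hF.comp_measurePreserving (mp_res A)

lemma int_sq_res (hF : MemLp F 2 (lw ι μ)) (A : Set ι) :
    ∫ w, F (splice A w.2 w.1) ^ 2 ∂((lw ι μ).prod (lw ι μ)) = ∫ g, F g ^ 2 ∂(lw ι μ) :=
  mp_integral (F := fun g => F g ^ 2) (mp_res A) hF.integrable_sq.aestronglyMeasurable

lemma int_sq_fst (hF : MemLp F 2 (lw ι μ)) :
    ∫ w : (ι → ℝ) × (ι → ℝ), F w.1 ^ 2 ∂((lw ι μ).prod (lw ι μ)) = ∫ g, F g ^ 2 ∂(lw ι μ) :=
  mp_integral (F := fun g => F g ^ 2) measurePreserving_fst hF.integrable_sq.aestronglyMeasurable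

lemma int_mul_res (hF : MemLp F 2 (lw ι μ)) (A B : Set ι) :
    Integrable (fun w : (ι → ℝ) × (ι → ℝ) => F (splice A w.2 w.1) * F (splice B w.2 w.1))
      ((lw ι μ).prod (lw ι μ)) :=
  (memLp_res hF A).integrable_mul (memLp_res hF B)

lemma int_mul_fst (hF : MemLp F 2 (lw ι μ)) (B : Set ι) :
    Integrable (fun w : (ι → ℝ) × (ι → ℝ) => F w.1 * F (splice B w.2 w.1))
      ((lw ι μ).prod (lw ι μ)) :=
  (memLp_fst hF).integrable_mul (memLp_res hF B)

/-- (A1). -/
theorem ev_eq (hF : MemLp F 2 (lw ι μ)) (A : Set ι) :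
    ev μ A F = ∫ g, F g ^ 2 ∂(lw ι μ) - qF μ A F := by
  have h1 : (fun w : (ι → ℝ) × (ι → ℝ) => (F (splice A w.2 w.1) - F w.1) ^ 2) = fun w =>
      F (splice A w.2 w.1) ^ 2 + F w.1 ^ 2 - 2 * (F w.1 * F (splice A w.2 w.1)) := by
    ext w
    ring
  have i1 := (memLp_res hF A).integrable_sq
  have i2 := (memLp_fst hF).integrable_sq
  have i3 := int_mul_fst hF A
  have i12 : Integrable (fun w : (ι → ℝ) × (ι → ℝ) => F (splice A w.2 w.1) ^ 2 + F w.1 ^ 2)
      ((lw ι μ).prod (lw ι μ)) := i1.add i2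
  unfold ev
  rw [h1, integral_sub i12 (i3.const_mul 2), integral_add i1 i2, integral_const_mul, int_sq_res hF, int_sq_fst hF]
  unfold qF
  ring

/-- The correlation of two configurations which differ in `A` and `B` respectively. -/
lemma q_cross (hF : MemLp F 2 (lw ι μ)) {A B : Set ι} (h : Disjoint A B) :
    ∫ w, F (splice A w.2 w.1) * F (splice B w.2 w.1) ∂((lw ι μ).prod (lw ι μ)) = qF μ (A ∪ B) F := by
  have h2 := mp_integral (F := fun w : (ι → ℝ) × (ι → ℝ) => F w.1 * F (splice (A ∪ B) w.2 w.1))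
    (mp_swap (μ := μ) A) (int_mul_fst hF (A ∪ B)).aestronglyMeasurable
  unfold qF
  rw [← h2]
  refine integral_congr_ae (Filter.Eventually.of_forall fun w => ?_)
  simp only
  rw [splice_union_swap h]

lemma q_cross' (hF : MemLp F 2 (lw ι μ)) {A B : Set ι} (h : Disjoint A B) :
    ∫ w, F (splice A w.2 w.1) * F (splice (A ∪ B) w.2 w.1) ∂((lw ι μ).prod (lw ι μ)) = qF μ B F := by
  have h2 := mp_integral (F := fun w : (ι → ℝ) × (ι → ℝ) => F w.1 * F (splice B w.2 w.1))
    (mp_swap (μ := μ) A) (int_mul_fst hF B).aestronglyMeasurable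
  unfold qF
  rw [← h2]
  refine integral_congr_ae (Filter.Eventually.of_forall fun w => ?_)
  simp only
  rw [splice_swap_union h]

/-- (A4): the exact tensorisation with interaction. -/
theorem ev_union (hF : MemLp F 2 (lw ι μ)) {A B : Set ι} (h : Disjoint A B) :
    ev μ (A ∪ B) F + mix μ A B F = ev μ A F + ev μ B F := by
  have e00 := (memLp_fst hF).integrable_sq
  have eA := (memLp_res hF A).integrable_sq
  have eB := (memLp_res hF B).integrable_sq
  have eAB := (memLp_res hF (A ∪ B)).integrable_sq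
  have p1 := int_mul_fst hF A
  have p2 := int_mul_fst hF B
  have p3 := int_mul_fst hF (A ∪ B)
  have p4 := int_mul_res hF A B
  have p5 := int_mul_res hF A (A ∪ B)
  have p6 := int_mul_res hF B (A ∪ B)
  have h1 : (fun w : (ι → ℝ) × (ι → ℝ) => dd A B F w ^ 2) = fun w =>
      ((((F w.1 ^ 2 + F (splice A w.2 w.1) ^ 2) + F (splice B w.2 w.1) ^ 2) + F (splice (A ∪ B) w.2 w.1) ^ 2)
      + 2 * (((F w.1 * F (splice (A ∪ B) w.2 w.1) + F (splice A w.2 w.1) * F (splice B w.2 w.1))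
      - (F w.1 * F (splice A w.2 w.1) + F (splice B w.2 w.1) * F (splice (A ∪ B) w.2 w.1)))
      - (F w.1 * F (splice B w.2 w.1) + F (splice A w.2 w.1) * F (splice (A ∪ B) w.2 w.1)))) := by
    ext w
    unfold dd
    ring
  have s1 := e00.add eA
  have s2 := s1.add eB
  have s3 := s2.add eAB
  have t1 := p3.add p4
  have t2 := p1.add p6
  have t3 := t1.sub t2
  have t4 := p2.add p5
  have t5 := t3.sub t4
  have hswap : ∫ w, F (splice B w.2 w.1) * F (splice (A ∪ B) w.2 w.1) ∂((lw ι μ).prod (lw ι μ)) = qF μ A F := by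
    have := q_cross' hF h.symm
    rwa [Set.union_comm B A] at this
  have key : ∫ w, dd A B F w ^ 2 ∂((lw ι μ).prod (lw ι μ)) =
      4 * ∫ g, F g ^ 2 ∂(lw ι μ) + 2 * ((qF μ (A ∪ B) F + qF μ (A ∪ B) F - (qF μ A F + qF μ A F)) -
        (qF μ B F + qF μ B F)) := by
    rw [h1]
    have r1 : ∫ w : (ι → ℝ) × (ι → ℝ), ((((F w.1 ^ 2 + F (splice A w.2 w.1) ^ 2) + F (splice B w.2 w.1) ^ 2) +
          F (splice (A ∪ B) w.2 w.1) ^ 2)
      + 2 * (((F w.1 * F (splice (A ∪ B) w.2 w.1) + F (splice A w.2 w.1) * F (splice B w.2 w.1))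
      - (F w.1 * F (splice A w.2 w.1) + F (splice B w.2 w.1) * F (splice (A ∪ B) w.2 w.1)))
      - (F w.1 * F (splice B w.2 w.1) + F (splice A w.2 w.1) * F (splice (A ∪ B) w.2 w.1))))
        ∂((lw ι μ).prod (lw ι μ)) =
        (∫ w : (ι → ℝ) × (ι → ℝ), (((F w.1 ^ 2 + F (splice A w.2 w.1) ^ 2) + F (splice B w.2 w.1) ^ 2) +
          F (splice (A ∪ B) w.2 w.1) ^ 2) ∂((lw ι μ).prod (lw ι μ))) + 2 *
        ∫ w : (ι → ℝ) × (ι → ℝ), (((F w.1 * F (splice (A ∪ B) w.2 w.1) + F (splice A w.2 w.1) * F (splice B w.2 w.1))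
      - (F w.1 * F (splice A w.2 w.1) + F (splice B w.2 w.1) * F (splice (A ∪ B) w.2 w.1)))
      - (F w.1 * F (splice B w.2 w.1) + F (splice A w.2 w.1) * F (splice (A ∪ B) w.2 w.1)))
        ∂((lw ι μ).prod (lw ι μ)) := by
      rw [← integral_const_mul]
      exact integral_add s3 (t5.const_mul 2)
    have r2 : ∫ w : (ι → ℝ) × (ι → ℝ), (((F w.1 ^ 2 + F (splice A w.2 w.1) ^ 2) + F (splice B w.2 w.1) ^ 2) +
          F (splice (A ∪ B) w.2 w.1) ^ 2) ∂((lw ι μ).prod (lw ι μ)) = 4 * ∫ g, F g ^ 2 ∂(lw ι μ) := by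
      have a1 := integral_add s2 eAB
      have a2 := integral_add s1 eB
      have a3 := integral_add e00 eA
      have b1 := int_sq_fst hF
      have b2 := int_sq_res hF A
      have b3 := int_sq_res hF B
      have b4 := int_sq_res hF (A ∪ B)
      simp only [Pi.add_apply] at a1 a2 a3
      rw [a1, a2, a3, b1, b2, b3, b4]
      ring
    have r3 : ∫ w : (ι → ℝ) × (ι → ℝ), (((F w.1 * F (splice (A ∪ B) w.2 w.1) + F (splice A w.2 w.1) * F (splice B w.2 w.1))
      - (F w.1 * F (splice A w.2 w.1) + F (splice B w.2 w.1) * F (splice (A ∪ B) w.2 w.1)))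
      - (F w.1 * F (splice B w.2 w.1) + F (splice A w.2 w.1) * F (splice (A ∪ B) w.2 w.1)))
        ∂((lw ι μ).prod (lw ι μ)) = (qF μ (A ∪ B) F + qF μ (A ∪ B) F - (qF μ A F + qF μ A F)) -
        (qF μ B F + qF μ B F) := by
      have a1 := integral_sub t3 t4
      have a2 := integral_sub t1 t2
      have a3 := integral_add p3 p4
      have a4 := integral_add p1 p6
      have a5 := integral_add p2 p5
      simp only [Pi.add_apply, Pi.sub_apply] at a1 a2 a3 a4 a5
      rw [a1, a2, a3, a4, a5, q_cross hF h, q_cross' hF h, hswap]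
      rfl
    rw [r1, r2, r3]
  unfold mix
  rw [key, ev_eq hF, ev_eq hF, ev_eq hF]
  ring

/-- (A3): the one sided form. -/
theorem ev_eq_pos (hF : MemLp F 2 (lw ι μ)) (A : Set ι) :
    ev μ A F = ∫ w, max (F (splice A w.2 w.1) - F w.1) 0 ^ 2 ∂((lw ι μ).prod (lw ι μ)) := by
  have m1 : MemLp (fun w : (ι → ℝ) × (ι → ℝ) => F (splice A w.2 w.1) - F w.1) 2 ((lw ι μ).prod (lw ι μ)) :=
    (memLp_res hF A).sub (memLp_fst hF)
  have i1 := m1.integrable_sq
  have hm : AEStronglyMeasurable (fun w : (ι → ℝ) × (ι → ℝ) => F (splice A w.2 w.1) - F w.1)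
    ((lw ι μ).prod (lw ι μ)) := m1.aestronglyMeasurable
  have m2 : AEStronglyMeasurable (fun w : (ι → ℝ) × (ι → ℝ) => max (F (splice A w.2 w.1) - F w.1) 0 ^ 2)
    ((lw ι μ).prod (lw ι μ)) := by
    have := (hm.sup (aestronglyMeasurable_const (b := (0 : ℝ)))).pow 2
    exact this
  have i2 : Integrable (fun w : (ι → ℝ) × (ι → ℝ) => max (F (splice A w.2 w.1) - F w.1) 0 ^ 2)
      ((lw ι μ).prod (lw ι μ)) := by
    refine i1.mono' m2 (Filter.Eventually.of_forall fun w => ?_)
    rw [Real.norm_eq_abs, abs_of_nonneg (sq_nonneg _)]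
    rcases le_total (F (splice A w.2 w.1) - F w.1) 0 with h | h
    · rw [max_eq_right h]
      simpa using sq_nonneg (F (splice A w.2 w.1) - F w.1)
    · rw [max_eq_left h]
  have h2 := mp_integral (F := fun w : (ι → ℝ) × (ι → ℝ) => max (F (splice A w.2 w.1) - F w.1) 0 ^ 2)
    (mp_swap (μ := μ) A) m2
  have i3 : Integrable (fun w : (ι → ℝ) × (ι → ℝ) => max (F w.1 - F (splice A w.2 w.1)) 0 ^ 2)
      ((lw ι μ).prod (lw ι μ)) := by
    have := (mp_swap (μ := μ) A).integrable_comp_of_integrable i2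
    refine this.congr (Filter.Eventually.of_forall fun w => ?_)
    simp only [Function.comp]
    rw [splice_splice_back]
  have h3 : ∫ w : (ι → ℝ) × (ι → ℝ), max (F w.1 - F (splice A w.2 w.1)) 0 ^ 2 ∂((lw ι μ).prod (lw ι μ)) =
      ∫ w : (ι → ℝ) × (ι → ℝ), max (F (splice A w.2 w.1) - F w.1) 0 ^ 2 ∂((lw ι μ).prod (lw ι μ)) := by
    rw [← h2]
    refine integral_congr_ae (Filter.Eventually.of_forall fun w => ?_)
    simp only
    rw [splice_splice_back]
  have h4 : (fun w : (ι → ℝ) × (ι → ℝ) => (F (splice A w.2 w.1) - F w.1) ^ 2) = fun w =>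
      max (F (splice A w.2 w.1) - F w.1) 0 ^ 2 + max (F w.1 - F (splice A w.2 w.1)) 0 ^ 2 := by
    ext w
    rcases le_total (F (splice A w.2 w.1)) (F w.1) with h | h
    · rw [max_eq_right (by linarith), max_eq_left (by linarith)]
      ring
    · rw [max_eq_left (by linarith), max_eq_right (by linarith)]
      ring
  unfold ev
  rw [h4, integral_add i2 i3, h3]
  ring

/-- The input form of the interaction: the mixed difference is large with positive probability. -/
theorem mix_ge (hF : MemLp F 2 (lw ι μ)) (A B : Set ι) {S : Set ((ι → ℝ) × (ι → ℝ))} {a : ℝ}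
    (ha : 0 ≤ a) (hS : MeasurableSet S) (h : ∀ w ∈ S, a ≤ |dd A B F w|) :
    a ^ 2 * ((lw ι μ).prod (lw ι μ)).real S / 4 ≤ mix μ A B F := by
  have m1 : MemLp (fun w : (ι → ℝ) × (ι → ℝ) => dd A B F w) 2 ((lw ι μ).prod (lw ι μ)) :=
    (((memLp_fst hF).sub (memLp_res hF A)).sub (memLp_res hF B)).add (memLp_res hF (A ∪ B))
  have h1 : ∫ w, S.indicator (fun _ => a ^ 2) w ∂((lw ι μ).prod (lw ι μ)) =
      ((lw ι μ).prod (lw ι μ)).real S * a ^ 2 := by
    rw [integral_indicator_const _ hS, smul_eq_mul]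
  have h2 : ∫ w, S.indicator (fun _ => a ^ 2) w ∂((lw ι μ).prod (lw ι μ)) ≤
      ∫ w, dd A B F w ^ 2 ∂((lw ι μ).prod (lw ι μ)) := by
    refine integral_mono ((integrable_const _).indicator hS) m1.integrable_sq fun w => ?_
    show S.indicator (fun _ => a ^ 2) w ≤ dd A B F w ^ 2
    by_cases hw : w ∈ S
    · rw [Set.indicator_of_mem hw, ← sq_abs (dd A B F w)]
      exact pow_le_pow_left₀ ha (h w hw) 2
    · rw [Set.indicator_of_notMem hw]
      exact sq_nonneg _
  rw [h1] at h2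
  unfold mix
  linarith

/-! ### The conditional expectation -/

/-- `F` with the sites of `A` integrated out. -/
def cE (μ : Measure ℝ) (A : Set ι) (F : (ι → ℝ) → ℝ) : (ι → ℝ) → ℝ := fun g => ∫ g', F (splice A g' g) ∂(lw ι μ)

omit [IsProbabilityMeasure μ] in
lemma cE_congr (A : Set ι) (F : (ι → ℝ) → ℝ) : DependsOn (cE μ A F) Aᶜ := by
  classical
  intro g g' h
  unfold cE
  have h1 : ∀ g'', splice A g'' g = splice A g'' g' := by
    intro g''
    ext p
    unfold splice
    split_ifs with hp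
    · rfl
    · exact h p hp
  simp only [h1]

lemma measurable_cE {F : (ι → ℝ) → ℝ} (hF : Measurable F) (A : Set ι) : Measurable (cE μ A F) := by
  have h1 : Measurable fun w : (ι → ℝ) × (ι → ℝ) => F (splice A w.2 w.1) := hF.comp (mp_res (μ := μ) A).measurable
  exact (h1.stronglyMeasurable.integral_prod_right (ν := lw ι μ)).measurable

/-- Integrating a product with a function which does not depend on `A`. -/
lemma int_mul_cE (A : Set ι) {F H : (ι → ℝ) → ℝ} (hFH : Integrable (fun g => F g * H g) (lw ι μ))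
    (hH : DependsOn H Aᶜ) : ∫ g, F g * H g ∂(lw ι μ) = ∫ g, cE μ A F g * H g ∂(lw ι μ) := by
  have h1 := mp_integral (F := fun g => F g * H g) (mp_res (μ := μ) A) hFH.aestronglyMeasurable
  have h2 : Integrable (fun w : (ι → ℝ) × (ι → ℝ) => F (splice A w.2 w.1) * H (splice A w.2 w.1))
      ((lw ι μ).prod (lw ι μ)) := (mp_res (μ := μ) A).integrable_comp_of_integrable hFH
  rw [← h1, integral_prod _ h2]
  refine integral_congr_ae (Filter.Eventually.of_forall fun g => ?_)
  show ∫ g', F (splice A g' g) * H (splice A g' g) ∂(lw ι μ) = (∫ g', F (splice A g' g) ∂(lw ι μ)) * H g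
  rw [← integral_mul_const]
  refine integral_congr_ae (Filter.Eventually.of_forall fun g' => ?_)
  show F (splice A g' g) * H (splice A g' g) = F (splice A g' g) * H g
  rw [hH (x := splice A g' g) (y := g) fun p hp => splice_not_mem _ _ hp]

lemma memLp_cE {F : (ι → ℝ) → ℝ} (hm : Measurable F) (hF : MemLp F 2 (lw ι μ)) (A : Set ι) :
    MemLp (cE μ A F) 2 (lw ι μ) := by
  have i1 : Integrable (fun w : (ι → ℝ) × (ι → ℝ) => F (splice A w.2 w.1) ^ 2) ((lw ι μ).prod (lw ι μ)) :=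
    (memLp_res hF A).integrable_sq
  have i2 : Integrable (fun w : (ι → ℝ) × (ι → ℝ) => F (splice A w.2 w.1)) ((lw ι μ).prod (lw ι μ)) :=
    (memLp_res hF A).integrable (by norm_num)
  have h1 := i1.integral_prod_left
  rw [memLp_two_iff_integrable_sq (measurable_cE hm A).aestronglyMeasurable]
  refine h1.mono' ((measurable_cE hm A).pow_const 2).aestronglyMeasurable ?_
  filter_upwards [i1.prod_right_ae, i2.prod_right_ae] with g h2 h3
  rw [Real.norm_eq_abs, abs_of_nonneg (sq_nonneg _)]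
  have h4 := ProbabilityTheory.variance_nonneg (fun g' => F (splice A g' g)) (lw ι μ)
  have h5 : MemLp (fun g' => F (splice A g' g)) 2 (lw ι μ) := by
    rw [memLp_two_iff_integrable_sq h3.aestronglyMeasurable]
    exact h2
  rw [ProbabilityTheory.variance_eq_sub h5] at h4
  have h6 : (lw ι μ)[(fun g' => F (splice A g' g)) ^ 2] = ∫ g', F (splice A g' g) ^ 2 ∂(lw ι μ) := rfl
  rw [h6] at h4
  unfold cE
  linarith

/-- `q` is the square of the norm of the conditional expectation. -/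
theorem qF_eq {F : (ι → ℝ) → ℝ} (hm : Measurable F) (hF : MemLp F 2 (lw ι μ)) (A : Set ι) :
    qF μ A F = ∫ g, cE μ A F g ^ 2 ∂(lw ι μ) := by
  have h1 : Integrable (fun g => F g * cE μ A F g) (lw ι μ) := hF.integrable_mul (memLp_cE hm hF A)
  have h2 := int_mul_cE A h1 (cE_congr A F)
  have h3 : ∫ g, cE μ A F g ^ 2 ∂(lw ι μ) = ∫ g, cE μ A F g * cE μ A F g ∂(lw ι μ) :=
    integral_congr_ae (Filter.Eventually.of_forall fun g => by simp only; ring)
  rw [h3, ← h2]
  unfold qF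
  rw [integral_prod _ (int_mul_fst hF A)]
  refine integral_congr_ae (Filter.Eventually.of_forall fun g => ?_)
  show ∫ g', F g * F (splice A g' g) ∂(lw ι μ) = F g * cE μ A F g
  rw [integral_const_mul]
  rfl

/-- Integrating out a larger set. -/
lemma cE_cE {F : (ι → ℝ) → ℝ} (hF : Integrable F (lw ι μ)) {A B : Set ι} (h : A ⊆ B) :
    ∀ᵐ g ∂(lw ι μ), cE μ B (cE μ A F) g = cE μ B F g := by
  classical
  have i1 : Integrable (fun w : (ι → ℝ) × (ι → ℝ) => F (splice B w.2 w.1)) ((lw ι μ).prod (lw ι μ)) :=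
    (mp_res (μ := μ) B).integrable_comp_of_integrable hF
  filter_upwards [i1.prod_right_ae] with g hg
  have h1 := mp_integral (F := fun g' => F (splice B g' g)) (mp_res (μ := μ) A) hg.aestronglyMeasurable
  have h2 : Integrable (fun w : (ι → ℝ) × (ι → ℝ) => F (splice B (splice A w.2 w.1) g)) ((lw ι μ).prod (lw ι μ)) :=
    (mp_res (μ := μ) A).integrable_comp_of_integrable hg
  show ∫ g', (∫ g'', F (splice A g'' (splice B g' g)) ∂(lw ι μ)) ∂(lw ι μ) = ∫ g', F (splice B g' g) ∂(lw ι μ)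
  rw [← h1, integral_prod _ h2]
  refine integral_congr_ae (Filter.Eventually.of_forall fun g' => ?_)
  simp only
  refine integral_congr_ae (Filter.Eventually.of_forall fun g'' => ?_)
  simp only
  congr 1
  ext p
  unfold splice
  by_cases hA : p ∈ A
  · simp [hA, h hA]
  · simp [hA]

/-- `E Var_A` increases with `A`. -/
theorem ev_mono {F : (ι → ℝ) → ℝ} (hm : Measurable F) (hF : MemLp F 2 (lw ι μ)) {A B : Set ι} (h : A ⊆ B) :
    ev μ A F ≤ ev μ B F := by
  have h1 := memLp_cE hm hF A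
  have h2 := measurable_cE (μ := μ) hm A
  have h3 : qF μ B F = qF μ B (cE μ A F) := by
    rw [qF_eq hm hF, qF_eq h2 h1]
    refine integral_congr_ae ?_
    filter_upwards [cE_cE (hF.integrable (by norm_num)) h] with g hg
    rw [hg]
  have h4 := ev_eq h1 B
  have h5 := ev_nonneg (μ := μ) B (cE μ A F)
  rw [ev_eq hF, ev_eq hF, h3, qF_eq hm hF A]
  linarith

/-- The whole space gives the variance. -/
theorem ev_of_dep {F : (ι → ℝ) → ℝ} (hm : Measurable F) (hF : MemLp F 2 (lw ι μ)) {A : Set ι} (h : DependsOn F A) :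
    ev μ A F = Var[F; lw ι μ] := by
  rw [ev_eq hF, ProbabilityTheory.variance_eq_sub hF, qF_eq hm hF]
  have h1 : ∀ g, cE μ A F g = ∫ g', F g' ∂(lw ι μ) := by
    intro g
    unfold cE
    refine integral_congr_ae (Filter.Eventually.of_forall fun g' => ?_)
    exact h fun p hp => splice_mem _ _ hp
  simp only [h1]
  have h2 : (lw ι μ)[F ^ 2] = ∫ g, F g ^ 2 ∂(lw ι μ) := rfl
  rw [h2]
  simp

omit [IsProbabilityMeasure μ] in
/-- No dependence, no variance. -/
theorem ev_of_not_dep {F : (ι → ℝ) → ℝ} {A B : Set ι} (h : DependsOn F A) (hAB : Disjoint A B) :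
    ev μ B F = 0 := by
  unfold ev
  have h1 : ∀ w : (ι → ℝ) × (ι → ℝ), (F (splice B w.2 w.1) - F w.1) ^ 2 = 0 := by
    intro w
    have h2 : F (splice B w.2 w.1) = F w.1 := h fun p hp => splice_not_mem _ _ (Set.disjoint_left.1 hAB hp)
    rw [h2]
    ring
  simp only [h1]
  simp

/-- (A5) for a finite family of disjoint sets. -/
theorem ev_iUnion_le {F : (ι → ℝ) → ℝ} (hF : MemLp F 2 (lw ι μ)) {τ : Type*} [DecidableEq τ]
    (s : Finset τ) (A : τ → Set ι) (hd : ∀ i ∈ s, ∀ j ∈ s, i ≠ j → Disjoint (A i) (A j)) :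
    ev μ (⋃ i ∈ s, A i) F ≤ ∑ i ∈ s, ev μ (A i) F := by
  classical
  induction s using Finset.induction_on with
  | empty =>
    simp only [Finset.notMem_empty, Set.iUnion_of_empty, Set.iUnion_empty, Finset.sum_empty]
    refine le_of_eq ?_
    unfold ev
    simp [splice_empty]
  | insert i s hi ih =>
    have h1 := ih fun j hj k hk => hd j (Finset.mem_insert_of_mem hj) k (Finset.mem_insert_of_mem hk)
    have h2 : (⋃ j ∈ insert i s, A j) = A i ∪ ⋃ j ∈ s, A j := by
      rw [Finset.set_biUnion_insert]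
    have h3 : Disjoint (A i) (⋃ j ∈ s, A j) := by
      rw [Set.disjoint_iUnion₂_right]
      intro j hj
      exact hd i (Finset.mem_insert_self _ _) j (Finset.mem_insert_of_mem hj) fun hij => hi (hij ▸ hj)
    have h4 := ev_union hF h3
    have h5 := mix_nonneg (μ := μ) (A i) (⋃ j ∈ s, A j) F
    rw [h2, Finset.sum_insert hi]
    linarith

/-- (A5) with the interaction of two of the sets. -/
theorem ev_iUnion_mix_le {F : (ι → ℝ) → ℝ} (hF : MemLp F 2 (lw ι μ)) {τ : Type*} [DecidableEq τ]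
    (s : Finset τ) (A : τ → Set ι) (hd : ∀ i ∈ s, ∀ j ∈ s, i ≠ j → Disjoint (A i) (A j)) {a b : τ} (ha : a ∈ s)
    (hb : b ∈ s) (hab : a ≠ b) :
    ev μ (⋃ i ∈ s, A i) F + mix μ (A a) (A b) F ≤ ∑ i ∈ s, ev μ (A i) F := by
  classical
  obtain ⟨t, ht⟩ : ∃ t : Finset τ, t = (s.erase a).erase b := ⟨_, rfl⟩
  have hb' : b ∈ s.erase a := Finset.mem_erase.2 ⟨hab.symm, hb⟩
  have e1 : ∑ i ∈ s, ev μ (A i) F = ev μ (A a) F + (ev μ (A b) F + ∑ i ∈ t, ev μ (A i) F) := by
    rw [ht, Finset.add_sum_erase (s.erase a) (fun i => ev μ (A i) F) hb',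
      Finset.add_sum_erase s (fun i => ev μ (A i) F) ha]
  have hts : ∀ i ∈ t, i ∈ s ∧ i ≠ a ∧ i ≠ b := by
    intro i hi
    rw [ht, Finset.mem_erase, Finset.mem_erase] at hi
    exact ⟨hi.2.2, hi.2.1, hi.1⟩
  have h1 := ev_iUnion_le hF t A fun i hi j hj hij => hd i (hts i hi).1 j (hts j hj).1 hij
  have h2 := ev_union hF (hd a ha b hb hab)
  have h3 : (⋃ i ∈ s, A i) = (A a ∪ A b) ∪ ⋃ i ∈ t, A i := by
    ext p
    simp only [Set.mem_iUnion, Set.mem_union, exists_prop]
    constructor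
    · rintro ⟨i, hi, hp⟩
      by_cases hia : i = a
      · exact Or.inl (Or.inl (hia ▸ hp))
      · by_cases hib : i = b
        · exact Or.inl (Or.inr (hib ▸ hp))
        · exact Or.inr ⟨i, by rw [ht, Finset.mem_erase, Finset.mem_erase]; exact ⟨hib, hia, hi⟩, hp⟩
    · rintro ((hp | hp) | ⟨i, hi, hp⟩)
      · exact ⟨a, ha, hp⟩
      · exact ⟨b, hb, hp⟩
      · exact ⟨i, (hts i hi).1, hp⟩
  have h4 : Disjoint (A a ∪ A b) (⋃ i ∈ t, A i) := by
    rw [Set.disjoint_iUnion₂_right]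
    intro i hi
    obtain ⟨h5, h6, h7⟩ := hts i hi
    exact Set.disjoint_union_left.2 ⟨hd a ha i h5 (Ne.symm h6), hd b hb i h5 (Ne.symm h7)⟩
  have h5 := ev_union hF h4
  have h6 := mix_nonneg (μ := μ) (A a ∪ A b) (⋃ i ∈ t, A i) F
  rw [h3, e1]
  linarith

end

end Pool.Agent.W_7d29a1_X42
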